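import Pool.Agent.SBC.SUB
import Pool.Agent.SBC.LOW
import Pool.Agent.SBC.UPP
import Pool.Agent.SBC.GEO
import Pool.Agent.SBC.PRB
import Pool.Agent.SBC.JAN
import Pool.Agent.SBC.TRA
import Pool.Agent.SBC.TEE

set_option autoImplicit false

/-!
# The sample size of the sample-based tester for planar convexity
-/

namespace Pool.Agent.Results.MP_e76d88_lc.SharpSampleSize

open Pool.Agent.SBC Filter Topology

/-- Let `0 < ε < 1 / 3` and `0 < p < 1`, and let `sampleSize ε p n` be the least sample size for
which the tester, which accepts iff its sample is in convex position, accepts every configuration of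
`n` points in general position that is `ε`-far from convex with probability at most `p`. Then
`sampleSize ε p n / n ^ (2 / 3)` tends to `(log (1 / p) / ε) ^ (1 / 3)`. For `ε = 1 / 4` the sample
size is asymptotically `(4 log (1 / p)) ^ (1 / 3) * n ^ (2 / 3)`. -/
theorem result : ∀ ε p : ℝ, 0 < ε → ε < 1 / 3 → 0 < p → p < 1 →
    Tendsto (fun n : ℕ => (sampleSize ε p n : ℝ) / (n : ℝ) ^ (2 / 3 : ℝ)) atTop
      (𝓝 ((Real.log (1 / p) / ε) ^ (1 / 3 : ℝ))) :=
  tFIN (tUPP tPRB tJAN tTRA tGEO) (tLOW tPRB tTRA tTEE)

end Pool.Agent.Results.MP_e76d88_lc.SharpSampleSize
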